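import Mathlib

/-!
# Khintchine type is not inherited by nondegenerate submanifolds: statements
-/

set_option autoImplicit false

open Filter MeasureTheory

namespace Pool.Agent.W209.KT

/-- distance to the nearest integer -/
noncomputable def nrm (x : ℝ) : ℝ := |x - round x|

/-- simultaneously `ψ`-approximable points -/
def Appr {n : ℕ} (ψ : ℕ → ℝ) (x : Fin n → ℝ) : Prop :=
  ∃ᶠ q : ℕ in atTop, ∀ i, |(q : ℝ) * x i - (round ((q : ℝ) * x i) : ℝ)| < ψ q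

/-- affine functions on `ℝ^10` -/
noncomputable def aff (A : Fin 2 → Fin 11 → ℝ) (j : Fin 2) (x : Fin 10 → ℝ) : ℝ :=
  A j 0 + ∑ l : Fin 10, A j l.succ * x l

/-- the parametrisation of the affine subspace of `ℝ^12` -/
noncomputable def pt (A : Fin 2 → Fin 11 → ℝ) (x : Fin 10 → ℝ) : Fin 12 → ℝ :=
  Fin.append x (fun j : Fin 2 => aff A j x)

/-- the moment curve -/
noncomputable def gam (t : ℝ) : Fin 10 → ℝ := fun l => t ^ (l.1 + 1)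

def lev (k : ℕ) : ℕ := Nat.log 256 (k + 1)
noncomputable def u (k : ℕ) : ℝ := 1 + ((k + 1 : ℝ) - 256 ^ lev k) / (255 * 256 ^ lev k)
def D (k : ℕ) : ℕ := 2 ^ (1000 * 36 ^ k)
def E (k : ℕ) : ℕ := 3 ^ Nat.log 3 (D k)
def p (k : ℕ) (j : Fin 2) : ℕ := if j = 0 then D k else E k
noncomputable def F (k : ℕ) : ℝ := (D k : ℝ) ^ 12 / 2 ^ (12 * lev k)
noncomputable def v (j : Fin 2) : ℝ := if j = 0 then 1 else Real.sqrt 2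
noncomputable def g (u : ℝ) (l : Fin 11) : ℝ := (Nat.choose 10 l.1 : ℝ) * (-u) ^ (10 - l.1)

structure Good (A : Fin 2 → Fin 11 → ℝ) (s : ℕ → Fin 2 → Fin 11 → ℤ) : Prop where
  bd : ∀ j l, |A j l| ≤ 1
  bds : ∀ k j l, |(s k j l : ℝ)| ≤ 2 * p k j
  copr : ∀ k j, IsCoprime (s k j 10) (p k j : ℤ)
  close : ∀ k j l, |A j l - s k j l / p k j - v j / (F k * p k j) * g (u k) l| ≤
    20 / (D k : ℝ) ^ 36

/-- number of solutions -/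
noncomputable def cnt (α : Fin 2 → ℝ) (L : ℕ) (ψ : ℝ) : ℕ :=
  ({y : ℤ | |y| ≤ (L : ℤ) ∧ ∀ j, nrm (α j * y) ≤ ψ} : Set ℤ).ncard

/-- KT1: existence -/
def S_ex : Prop := ∃ A s, Good A s

/-- KT2: covering -/
def S_cov : Prop := (∀ k, (256 : ℝ) ^ lev k ≤ k + 1 ∧ (k : ℝ) + 1 < 256 ^ (lev k + 1)) ∧
  (∀ k, 1 ≤ u k ∧ u k ≤ 2) ∧
  ∀ t : ℝ, 1 ≤ t → t ≤ 2 → ∀ N : ℕ, ∃ k, N ≤ k ∧ |t - u k| ≤ (1 / 256) ^ lev k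

/-- KT3: pigeonhole -/
def S_pig : Prop := ∀ (s : Fin 2 → Fin 11 → ℤ) (p : Fin 2 → ℕ), (∀ j, 0 < p j) →
  ∀ (x : Fin 10 → ℝ) (m Q : ℕ), 0 < m → m ^ 10 * (p 0 * p 1) ≤ Q →
  ∃ (q : ℕ) (y : Fin 10 → ℤ), 0 < q ∧ q ≤ Q ∧ (∀ l, |(q : ℝ) * x l - y l| < 1 / m) ∧
    ∀ j, (p j : ℤ) ∣ s j 0 * q + ∑ l : Fin 10, s j l.succ * y l

/-- KT4: approximation of the points of the curve near `u k` -/
def S_curve : Prop := ∀ A s, Good A s → ∀ (k : ℕ) (t : ℝ), 1 ≤ t → t ≤ 2 →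
  |t - u k| ≤ (1 / 256) ^ lev k → ∃ q : ℕ, 0 < q ∧ q ≤ D k ^ 12 * 2 ^ (50 * lev k) ∧
    ∀ i, nrm (q * pt A (gam t) i) < 50 / (D k * 2 ^ (5 * lev k))

/-- KT5: the curve is not of Khintchine type for convergence -/
def S_M : Prop := ∀ A s, Good A s → ∃ ψ : ℕ → ℝ, (∀ q, 0 ≤ ψ q) ∧ Antitone ψ ∧
  Summable (fun q => ψ q ^ 12) ∧ ∀ t : ℝ, 1 ≤ t → t ≤ 2 → Irrational t → Appr ψ (pt A (gam t))

/-- KT6: returns of the line of slope `√2` -/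
def S_sq : Prop := ∃ C : ℝ, 0 < C ∧ ∀ (T : ℕ) (ε : ℝ), 0 < ε →
  (({m : ℤ | |m| ≤ (T : ℤ) ∧ nrm (Real.sqrt 2 * m) ≤ ε} : Set ℤ).ncard : ℝ) ≤ 1 + C * T * ε

/-- KT7: coarse count -/
def S_CA : Prop := ∃ C : ℝ, 0 < C ∧ ∀ A s, Good A s → ∀ (k L : ℕ) (ψ : ℝ),
  1 ≤ ψ * 100 * D k → D k ^ 2 ≤ L → (cnt (fun j => A j 10) L ψ : ℝ) ≤ C * L * ψ ^ 2

/-- KT8: fine count in a short interval -/
def S_CB0 : Prop := ∃ C : ℝ, 0 < C ∧ ∀ A s, Good A s → ∀ (k L : ℕ) (ψ : ℝ), 0 < ψ →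
  ψ * 100 * D k ≤ 1 → 1 ≤ L → (L : ℝ) * 20 ≤ ψ * (D k : ℝ) ^ 36 →
  (cnt (fun j => A j 10) L ψ : ℝ) ≤ C * (1 + L * D k * ψ / F k) *
    (1 + min (D k * ψ * F k) L / (D k : ℝ) ^ 2)

/-- KT9: fine count -/
def S_CB : Prop := ∃ C : ℝ, 0 < C ∧ ∀ A s, Good A s → ∀ (k L : ℕ) (ψ : ℝ), 0 < ψ →
  ψ * 200 * D k ≤ 1 → 1 ≤ L →
  (cnt (fun j => A j 10) L ψ : ℝ) ≤ C * (1 + L / (ψ * (D k : ℝ) ^ 36) + L * D k * ψ / F k) *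
    (1 + min (D k * ψ * F k) L / (D k : ℝ) ^ 2)

/-- the counting property -/
def CP (α : Fin 2 → ℝ) : Prop := ∀ K : ℕ, 1 ≤ K → ∃ (C : ℝ) (e : ℕ → ℝ), 0 < C ∧ Summable e ∧
  ∀ (i : ℕ) (ψ : ℝ), 0 < ψ → 2 ^ i * ψ ^ 12 ≤ K →
    ψ ^ 10 * cnt α (K * 2 ^ i) ψ ≤ C * (2 ^ i * ψ ^ 12 + e i)

/-- KT10: counting property from the counts -/
def S_C : Prop := S_CA → S_CB → ∀ A s, Good A s → CP fun j => A j 10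

/-- KT11: measure -/
def S_vol : Prop := ∀ A : Fin 2 → Fin 11 → ℝ, (∀ j l, |A j l| ≤ 1) → ∀ (R i : ℕ) (ψ : ℝ),
  1 ≤ R → 0 < ψ → ψ ≤ 1 → volume {x : Fin 10 → ℝ | (∀ l, |x l| ≤ R) ∧ ∃ q : ℕ, 2 ^ i ≤ q ∧
    q < 2 ^ (i + 1) ∧ ∀ j, nrm (q * pt A x j) < ψ} ≤
    ENNReal.ofReal ((100 * R) ^ 10 * ψ ^ 10 * cnt (fun j => A j 10) (8 * R * 2 ^ i) (22 * ψ))

/-- KT12: the subspace is of Khintchine type for convergence -/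
def S_L : Prop := S_vol → ∀ A : Fin 2 → Fin 11 → ℝ, (∀ j l, |A j l| ≤ 1) →
  (CP fun j => A j 10) → ∀ ψ : ℕ → ℝ, (∀ q, 0 ≤ ψ q) → Antitone ψ →
  Summable (fun q => ψ q ^ 12) → ∀ᵐ x : Fin 10 → ℝ, ¬ Appr ψ (pt A x)

/-- KT13: the subspace is of Khintchine type for divergence -/
def S_div : Prop := ∀ (A : Fin 2 → Fin 11 → ℝ) (ψ : ℕ → ℝ), (∀ q, 0 ≤ ψ q) → Antitone ψ →
  ¬ Summable (fun q => ψ q ^ 12) → ∀ᵐ x : Fin 10 → ℝ, Appr ψ (pt A x)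

/-- KT14: nondegeneracy -/
def S_nd : Prop := ∀ A : Fin 2 → Fin 11 → ℝ,
  (ContDiff ℝ (⊤ : ℕ∞) fun t => pt A (gam t)) ∧ ∀ t : ℝ,
    Submodule.span ℝ {w : Fin 12 → ℝ | ∃ i, 1 ≤ i ∧ i ≤ 10 ∧
      w = iteratedDeriv i (fun t => pt A (gam t)) t} =
    Submodule.span ℝ {w : Fin 12 → ℝ | ∃ x y, w = pt A x - pt A y}

end Pool.Agent.W209.KT
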